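import Mathlib

/-!
The degrees for which the parameter count is just below an integer.
-/

set_option autoImplicit false

namespace Pool.Agent.H669.FT

open Finset

/-- The factor `(k d + i) / (d + i)`. -/
noncomputable def uf (k d i : ℕ) : ℝ := ((k : ℝ) * d + i) / ((d : ℝ) + i)

/-- The parameter count. -/
noncomputable def xf (N k d : ℕ) : ℝ := ∏ i ∈ Finset.range N, uf k d (i + 1)

lemma uf_pos {k d i : ℕ} : 0 < uf k d (i + 1) := by
  unfold uf
  push_cast
  positivity

lemma uf_eq (k d i : ℕ) : uf k d (i + 1) = k - ((i : ℝ) + 1) * (k - 1) / (d + i + 1) := by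
  unfold uf
  push_cast
  have : (d : ℝ) + i + 1 ≠ 0 := by positivity
  have h2 : (d : ℝ) + (i + 1) ≠ 0 := by positivity
  field_simp
  ring

lemma uf_mono {k d d' i : ℕ} (hk : 1 ≤ k) (h : d ≤ d') : uf k d (i + 1) ≤ uf k d' (i + 1) := by
  rw [uf_eq, uf_eq]
  have hkR : (1 : ℝ) ≤ k := by exact_mod_cast hk
  have hR : (d : ℝ) ≤ d' := by exact_mod_cast h
  have h1 : ((i : ℝ) + 1) * (k - 1) / (d' + i + 1) ≤ ((i : ℝ) + 1) * (k - 1) / (d + i + 1) := by
    refine div_le_div_of_nonneg_left ?_ (by positivity) (by linarith)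
    exact mul_nonneg (by positivity) (by linarith)
  linarith

lemma uf_le {k d i : ℕ} (hk : 1 ≤ k) : uf k d (i + 1) ≤ k := by
  rw [uf_eq]
  have hkR : (1 : ℝ) ≤ k := by exact_mod_cast hk
  have : 0 ≤ ((i : ℝ) + 1) * (k - 1) / (d + i + 1) :=
    div_nonneg (mul_nonneg (by positivity) (by linarith)) (by positivity)
  linarith

lemma uf_ge {k d i : ℕ} (hd : 1 ≤ d) : (k : ℝ) / (i + 2) ≤ uf k d (i + 1) := by
  unfold uf
  have hdR : (1 : ℝ) ≤ d := by exact_mod_cast hd
  rw [div_le_div_iff₀ (by positivity) (by positivity)]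
  push_cast
  have hk : (0 : ℝ) ≤ k := Nat.cast_nonneg k
  have hi : (0 : ℝ) ≤ i := Nat.cast_nonneg i
  nlinarith [mul_nonneg hk hi, mul_nonneg (mul_nonneg hk hi) (by linarith : (0:ℝ) ≤ d - 1),
    mul_nonneg hk (by linarith : (0:ℝ) ≤ d - 1)]

lemma xf_pos (N k d : ℕ) : 0 < xf N k d := prod_pos fun _ _ => uf_pos

lemma xf_le {N k d : ℕ} (hk : 1 ≤ k) : xf N k d ≤ (k : ℝ) ^ N := by
  unfold xf
  calc ∏ i ∈ range N, uf k d (i + 1) ≤ ∏ _i ∈ range N, (k : ℝ) :=
        prod_le_prod (fun _ _ => uf_pos.le) fun _ _ => uf_le hk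
    _ = _ := by rw [prod_const, card_range]

/-- The constant for the lower bound of the growth. -/
noncomputable def cN (N : ℕ) : ℝ := 1 / (8 * (N + 1) ^ N)

lemma xf_ge {N k d : ℕ} (hd : 1 ≤ d) : (k : ℝ) ^ N / (N + 1) ^ N ≤ xf N k d := by
  unfold xf
  rw [← div_pow, ← card_range N, ← prod_const, card_range]
  refine prod_le_prod (fun _ _ => by positivity) fun i hi => ?_
  refine le_trans ?_ (uf_ge hd)
  have h1 : i < N := mem_range.1 hi
  have h2 : (i : ℝ) + 2 ≤ N + 1 := by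
    have : ((i + 1 : ℕ) : ℝ) ≤ N := by exact_mod_cast h1
    push_cast at this
    linarith
  exact div_le_div_of_nonneg_left (Nat.cast_nonneg k) (by positivity) h2

/-- The growth of the parameter count. -/
lemma xf_grow {N k d d' : ℕ} (hN : 1 ≤ N) (hk : 2 ≤ k) (hd : 1 ≤ d) (h : d ≤ d') :
    cN N * (k : ℝ) ^ N * (1 / d - 1 / d') ≤ xf N k d' - xf N k d := by
  obtain ⟨M, rfl⟩ : ∃ M, N = M + 1 := ⟨N - 1, by omega⟩
  have hkR : (2 : ℝ) ≤ k := by exact_mod_cast hk
  have hdR : (1 : ℝ) ≤ d := by exact_mod_cast hd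
  have hR : (d : ℝ) ≤ d' := by exact_mod_cast h
  have hd'0 : (0 : ℝ) < d' := by linarith
  -- split off the first factor
  have e : ∀ d, xf (M + 1) k d = (∏ i ∈ range M, uf k d (i + 1 + 1)) * uf k d (0 + 1) := by
    intro d
    unfold xf
    rw [prod_range_succ']
  rw [e d, e d']
  have h1 : ∏ i ∈ range M, uf k d (i + 1 + 1) ≤ ∏ i ∈ range M, uf k d' (i + 1 + 1) :=
    prod_le_prod (fun _ _ => uf_pos.le) fun _ _ => uf_mono (by omega) h
  have h2 : (k : ℝ) ^ M / (M + 2) ^ M ≤ ∏ i ∈ range M, uf k d (i + 1 + 1) := by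
    rw [← div_pow, ← card_range M, ← prod_const, card_range]
    refine prod_le_prod (fun _ _ => by positivity) fun i hi => ?_
    have h3 := uf_ge (k := k) (i := i + 1) hd
    refine le_trans ?_ h3
    have h1 : i < M := mem_range.1 hi
    have h2 : ((i + 1 : ℕ) : ℝ) + 2 ≤ M + 2 := by
      have : ((i + 1 : ℕ) : ℝ) ≤ M := by exact_mod_cast h1
      linarith
    exact div_le_div_of_nonneg_left (Nat.cast_nonneg k) (by positivity) h2
  have h3 : (k : ℝ) / 8 * (1 / d - 1 / d') ≤ uf k d' (0 + 1) - uf k d (0 + 1) := by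
    rw [uf_eq, uf_eq]
    push_cast
    have h4 : (k : ℝ) - ((0 : ℝ) + 1) * (k - 1) / (d' + 0 + 1) -
        (k - ((0 : ℝ) + 1) * (k - 1) / (d + 0 + 1)) =
        (k - 1) * ((d' - d) / ((d + 1) * (d' + 1))) := by
      field_simp
      ring
    have h5 : (1 : ℝ) / d - 1 / d' = (d' - d) / (d * d') := by
      have : (d : ℝ) ≠ 0 := by positivity
      field_simp
    rw [h4, h5]
    have h6 : (d' - d : ℝ) / (4 * (d * d')) ≤ (d' - d) / ((d + 1) * (d' + 1)) := by
      refine div_le_div_of_nonneg_left (by linarith) (by positivity) ?_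
      nlinarith
    have h7 : (0 : ℝ) ≤ (d' - d) / (4 * (d * d')) := div_nonneg (by linarith) (by positivity)
    calc (k : ℝ) / 8 * ((d' - d) / (d * d')) = k / 2 * ((d' - d) / (4 * (d * d'))) := by
          field_simp
          ring
      _ ≤ (k - 1) * ((d' - d) / (4 * (d * d'))) := mul_le_mul_of_nonneg_right (by linarith) h7
      _ ≤ _ := mul_le_mul_of_nonneg_left h6 (by linarith)
  have h8 : (0 : ℝ) ≤ 1 / d - 1 / d' := sub_nonneg.2 (one_div_le_one_div_of_le (by linarith) hR)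
  have h9 : 0 ≤ uf k d' (0 + 1) - uf k d (0 + 1) := sub_nonneg.2 (uf_mono (by omega) h)
  have h10 : 0 ≤ ∏ i ∈ range M, uf k d (i + 1 + 1) := prod_nonneg fun _ _ => uf_pos.le
  calc cN (M + 1) * (k : ℝ) ^ (M + 1) * (1 / d - 1 / d') ≤
        (k : ℝ) ^ M / (M + 2) ^ M * ((k : ℝ) / 8 * (1 / d - 1 / d')) := by
        have h11 : cN (M + 1) ≤ 1 / (8 * (M + 2) ^ M) := by
          unfold cN
          refine one_div_le_one_div_of_le (by positivity) ?_
          push_cast
          have e3 : (M : ℝ) + 1 + 1 = M + 2 := by ring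
          rw [e3, pow_succ]
          have : (1 : ℝ) ≤ M + 2 := by
            have : (0 : ℝ) ≤ M := Nat.cast_nonneg M
            linarith
          have h12 : (0 : ℝ) < (M + 2) ^ M := by positivity
          nlinarith
        calc _ ≤ 1 / (8 * ((M : ℝ) + 2) ^ M) * (k : ℝ) ^ (M + 1) * (1 / d - 1 / d') :=
              mul_le_mul_of_nonneg_right (mul_le_mul_of_nonneg_right h11 (by positivity)) h8
          _ = _ := by
              rw [pow_succ]
              field_simp
    _ ≤ (∏ i ∈ range M, uf k d (i + 1 + 1)) * (uf k d' (0 + 1) - uf k d (0 + 1)) :=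
        mul_le_mul h2 h3 (by positivity) h10
    _ ≤ _ := by
        have h12 : (∏ i ∈ range M, uf k d (i + 1 + 1)) * uf k d' (0 + 1) ≤
            (∏ i ∈ range M, uf k d' (i + 1 + 1)) * uf k d' (0 + 1) :=
          mul_le_mul_of_nonneg_right h1 uf_pos.le
        linarith

end Pool.Agent.H669.FT
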