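import Pool.Agent.H669.FT.Bad

/-!
Counting of the degrees for which the parameter count is just below an integer.
-/

set_option autoImplicit false

namespace Pool.Agent.H669.FT

open Finset

lemma xf_defect (N k d : ℕ) (hk : 1 ≤ k) (hd : 1 ≤ d) :
    (k : ℝ) ^ N - xf N k d ≤ (N : ℝ) ^ 2 * (k : ℝ) ^ N / d := by
  have hkR : (1 : ℝ) ≤ k := by exact_mod_cast hk
  have hdR : (1 : ℝ) ≤ d := by exact_mod_cast hd
  induction N with
  | zero => simp [xf]
  | succ N ih =>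
    have e : xf (N + 1) k d = xf N k d * uf k d (N + 1) := by
      unfold xf
      rw [prod_range_succ]
    have h1 : (k : ℝ) - uf k d (N + 1) ≤ ((N : ℝ) + 1) * k / d := by
      rw [uf_eq]
      have h2 : ((N : ℝ) + 1) * (k - 1) / (d + N + 1) ≤ ((N : ℝ) + 1) * k / d := by
        refine div_le_div₀ (by positivity) ?_ (by positivity) ?_
        · exact mul_le_mul_of_nonneg_left (by linarith) (by positivity)
        · have : (0 : ℝ) ≤ N := Nat.cast_nonneg N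
          linarith
      linarith
    have h3 : xf N k d * (k - uf k d (N + 1)) ≤ (k : ℝ) ^ N * (((N : ℝ) + 1) * k / d) :=
      mul_le_mul (xf_le hk) h1 (sub_nonneg.2 (uf_le hk)) (by positivity)
    have h4 := mul_le_mul_of_nonneg_left ih (by linarith : (0 : ℝ) ≤ k)
    have h5 : (k : ℝ) ^ (N + 1) - xf N k d * uf k d (N + 1) =
        k * ((k : ℝ) ^ N - xf N k d) + xf N k d * (k - uf k d (N + 1)) := by ring
    rw [e, h5]
    refine (add_le_add h4 h3).trans ?_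
    have h6 : (k : ℝ) * ((N : ℝ) ^ 2 * (k : ℝ) ^ N / d) + (k : ℝ) ^ N * (((N : ℝ) + 1) * k / d) =
        ((N : ℝ) ^ 2 + N + 1) * (k : ℝ) ^ (N + 1) / d := by
      field_simp
      ring
    rw [h6]
    refine div_le_div_of_nonneg_right (mul_le_mul_of_nonneg_right ?_ (by positivity))
      (by positivity)
    push_cast
    have : (0 : ℝ) ≤ N := Nat.cast_nonneg N
    nlinarith

/-- The defect is at least of the order `k ^ N / d`. -/
lemma xf_defect_ge {N k d : ℕ} (hN : 1 ≤ N) (hk : 2 ≤ k) (hd : 1 ≤ d) :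
    cN N * (k : ℝ) ^ N * (1 / (2 * d)) ≤ (k : ℝ) ^ N - xf N k d := by
  have h1 := xf_grow (d' := 2 * d) hN hk hd (by omega)
  have h2 := xf_le (N := N) (k := k) (d := 2 * d) (by omega)
  have hdR : (1 : ℝ) ≤ d := by exact_mod_cast hd
  have h3 : (1 : ℝ) / d - 1 / ((2 * d : ℕ) : ℝ) = 1 / (2 * d) := by
    push_cast
    field_simp
    ring
  rw [h3] at h1
  linarith

lemma cN_pos (N : ℕ) : 0 < cN N := by unfold cN; positivity

/-- The degrees which belong to a given integer. -/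
lemma card_Bi {N k i C : ℕ} (hN : 1 ≤ N) (hk : 2 ≤ k) (hi : 1 ≤ i) (S : Finset ℕ)
    (hS : ∀ d ∈ S, 1 ≤ d ∧ (i : ℝ) ≤ (k : ℝ) ^ N - xf N k d ∧
      (k : ℝ) ^ N - xf N k d < i + C * (k : ℝ) ^ (N - 1) / d) :
    (S.card : ℝ) ≤ C * (N : ℝ) ^ 2 / cN N * (k : ℝ) ^ (N - 1) * (1 / i) + 1 := by
  classical
  obtain ⟨M, rfl⟩ : ∃ M, N = M + 1 := ⟨N - 1, by omega⟩
  rw [Nat.add_sub_cancel] at hS ⊢
  have hkR : (2 : ℝ) ≤ k := by exact_mod_cast hk
  have hiR : (1 : ℝ) ≤ i := by exact_mod_cast hi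
  have hc := cN_pos (M + 1)
  have hL0 : 0 ≤ C * ((M + 1 : ℕ) : ℝ) ^ 2 / cN (M + 1) * (k : ℝ) ^ M * (1 / i) := by positivity
  rcases S.eq_empty_or_nonempty with rfl | hne
  · rw [card_empty, Nat.cast_zero]
    linarith
  obtain ⟨L, hL⟩ : ∃ L : ℝ, C * ((M + 1 : ℕ) : ℝ) ^ 2 / cN (M + 1) * (k : ℝ) ^ M * (1 / i) = L :=
    ⟨_, rfl⟩
  rw [hL] at hL0 ⊢
  set d₀ := S.min' hne with hd₀
  obtain ⟨h1, h2, h3⟩ := hS d₀ (S.min'_mem hne)
  have hd₀R : (1 : ℝ) ≤ d₀ := by exact_mod_cast h1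
  have hsub : S ⊆ Finset.Icc d₀ (d₀ + ⌊L⌋₊) := by
    intro d hd
    obtain ⟨h4, h5, h6⟩ := hS d hd
    have hle : d₀ ≤ d := S.min'_le d hd
    have hdR : (1 : ℝ) ≤ d := by exact_mod_cast h4
    have hleR : (d₀ : ℝ) ≤ d := by exact_mod_cast hle
    rw [Finset.mem_Icc]
    refine ⟨hle, ?_⟩
    have h7 := xf_grow (N := M + 1) hN hk h1 hle
    have h8 : cN (M + 1) * (k : ℝ) ^ (M + 1) * (1 / d₀ - 1 / d) < C * (k : ℝ) ^ M / d₀ := by
      linarith
    -- `d - d₀ < C d / (c k)`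
    have h9 : cN (M + 1) * k * (d - d₀) < C * d := by
      have h10 : cN (M + 1) * (k : ℝ) ^ (M + 1) * (1 / d₀ - 1 / d) =
          (k : ℝ) ^ M / d₀ * (cN (M + 1) * k * (d - d₀) / d) := by
        have : (d : ℝ) ≠ 0 := by positivity
        field_simp
        ring
      have h11 : C * (k : ℝ) ^ M / d₀ = (k : ℝ) ^ M / d₀ * C := by ring
      rw [h10, h11] at h8
      have h12 := lt_of_mul_lt_mul_left h8 (by positivity)
      rwa [div_lt_iff₀ (by linarith)] at h12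
    -- `d ≤ N ^ 2 k ^ N / i`
    have h10 : (d : ℝ) * i ≤ ((M + 1 : ℕ) : ℝ) ^ 2 * (k : ℝ) ^ (M + 1) := by
      have h11 := xf_defect (M + 1) k d (by omega) h4
      have h12 := h5.trans h11
      rw [le_div_iff₀ (by linarith)] at h12
      linarith
    have h11 : (d : ℝ) - d₀ ≤ L := by
      rw [← hL]
      have h12 : (d : ℝ) ≤ ((M + 1 : ℕ) : ℝ) ^ 2 * (k : ℝ) ^ (M + 1) / i := by
        rw [le_div_iff₀ (by linarith)]
        exact h10
      have h13 : cN (M + 1) * k * (d - d₀) ≤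
          C * (((M + 1 : ℕ) : ℝ) ^ 2 * (k : ℝ) ^ (M + 1) / i) :=
        h9.le.trans (mul_le_mul_of_nonneg_left h12 (Nat.cast_nonneg _))
      have h14 : C * (((M + 1 : ℕ) : ℝ) ^ 2 * (k : ℝ) ^ (M + 1) / i) =
          cN (M + 1) * k * (C * ((M + 1 : ℕ) : ℝ) ^ 2 / cN (M + 1) * (k : ℝ) ^ M * (1 / i)) := by
        have := hc.ne'
        field_simp
        ring
      rw [h14] at h13
      exact le_of_mul_le_mul_left h13 (by positivity)
    have h12 : d - d₀ ≤ ⌊L⌋₊ := by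
      refine Nat.le_floor ?_
      rw [Nat.cast_sub hle]
      exact h11
    omega
  have h4 := card_le_card hsub
  rw [Nat.card_Icc] at h4
  have h5 : S.card ≤ ⌊L⌋₊ + 1 := by omega
  have h6 : (S.card : ℝ) ≤ (⌊L⌋₊ : ℝ) + 1 := by exact_mod_cast h5
  exact h6.trans (add_le_add (Nat.floor_le hL0) le_rfl)

end Pool.Agent.H669.FT
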