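import Pool.Agent.H669.FT.Rank

/-!
The generic rank for sums of powers of forms: bounds.
-/

set_option autoImplicit false

namespace Pool.Agent.H669.FT

open MvPolynomial Pool.Agent.H929.BW

lemma PP_choose (n d : ℕ) :
    (((n + 1).factorial : ℕ) : ℝ) * ((d + (n + 1)).choose (n + 1) : ℕ) = PP n (d + 1) := by
  rw [← PP_nat', Nat.add_comm d]
  push_cast
  ring

/-- The general form is a sum of `s` powers if `s` is a bit larger than the parameter count. -/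
theorem genSum_ratio (j : ℕ) : ∃ C : ℕ, 1 ≤ C ∧ ∀ s d k : ℕ, C ≤ s → 1 ≤ k → 1 ≤ d →
    (1 + (C : ℝ) / (k * d : ℕ)) * ((k * d + (j + 2)).choose (j + 2) : ℕ) ≤
      s * ((d + (j + 2)).choose (j + 2) : ℕ) → GenSum (j + 3) k d s := by
  obtain ⟨C₀, hC₀⟩ := genSum_crit j
  refine ⟨3 ^ (j + 2) + (j + 2) * C₀ * (1 + C₀) ^ (j + 1), ?_, fun s d k hs hk hd h => ?_⟩
  · exact le_trans (Nat.one_le_pow _ _ (by norm_num)) (Nat.le_add_right _ _)
  refine hC₀ s d k (by omega) hk ?_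
  have hkd : 1 ≤ k * d := Nat.mul_pos hk hd
  have hkdR : (1 : ℝ) ≤ ((k * d : ℕ) : ℝ) := by exact_mod_cast hkd
  obtain ⟨D, hD⟩ : ∃ D : ℝ, ((k * d : ℕ) : ℝ) = D := ⟨_, rfl⟩
  have hC0 : (0 : ℝ) ≤ C₀ := Nat.cast_nonneg _
  -- multiply with the factorial
  have hf : (0 : ℝ) < (((j + 1 + 1).factorial : ℕ) : ℝ) := by exact_mod_cast Nat.factorial_pos _
  have h1 : (1 + ((3 ^ (j + 2) + (j + 2) * C₀ * (1 + C₀) ^ (j + 1) : ℕ) : ℝ) / (k * d : ℕ)) *
      PP (j + 1) ((k * d : ℕ) + 1) ≤ s * PP (j + 1) ((d : ℕ) + 1) := by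
    rw [← PP_choose (j + 1) (k * d), ← PP_choose (j + 1) d]
    have := mul_le_mul_of_nonneg_left h hf.le
    calc _ = (((j + 1 + 1).factorial : ℕ) : ℝ) *
          ((1 + ((3 ^ (j + 2) + (j + 2) * C₀ * (1 + C₀) ^ (j + 1) : ℕ) : ℝ) / (k * d : ℕ)) *
          ((k * d + (j + 2)).choose (j + 2) : ℕ)) := by ring
      _ ≤ _ := this
      _ = _ := by ring
  have hT := crit_pow (j + 1) s (d + 1)
  have hT0 := crit_nonneg (j + 1 + 1) s (d + 1)
  have e1 : (((d + 1 : ℕ)) : ℝ) = (d : ℝ) + 1 := by push_cast; ring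
  rw [e1] at hT
  rw [hD] at h1 hkdR ⊢
  have hD0 : 0 < D := by linarith
  -- the power
  have h2 : (D + C₀) ^ (j + 2) ≤ (1 + ((j + 2) * C₀ * (1 + C₀) ^ (j + 1)) / D) * D ^ (j + 2) := by
    have h3 := Pool.Agent.H669.FW.pow_sub_le (j + 1) hD0.le (by linarith : D ≤ D + C₀) le_rfl hC0
    have h4 : (D + C₀) ^ (j + 1) ≤ ((1 + C₀) * D) ^ (j + 1) :=
      pow_le_pow_left₀ (by positivity) (by nlinarith) _
    rw [mul_pow] at h4
    have h5 : (((j + 1 : ℕ) : ℝ) + 1) * C₀ * (D + C₀) ^ (j + 1) ≤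
        (((j + 1 : ℕ) : ℝ) + 1) * C₀ * ((1 + C₀) ^ (j + 1) * D ^ (j + 1)) :=
      mul_le_mul_of_nonneg_left h4 (by positivity)
    have h6 : (1 + (((j : ℝ) + 2) * C₀ * (1 + C₀) ^ (j + 1)) / D) * D ^ (j + 2) =
        D ^ (j + 2) + ((j : ℝ) + 2) * C₀ * ((1 + C₀) ^ (j + 1) * D ^ (j + 1)) := by
      field_simp
      ring
    rw [h6]
    push_cast at h3 h5
    have e2 : (j : ℝ) + 1 + 1 = j + 2 := by ring
    rw [e2] at h3 h5
    linarith
  have h3 : (1 + ((j + 2) * C₀ * (1 + C₀) ^ (j + 1)) / D) * D ^ (j + 2) ≤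
      crit (j + 1 + 1) s (d + 1) ^ (j + 1 + 1) := by
    rw [hT]
    refine le_trans ?_ h1
    have h7 : D ^ (j + 2) ≤ PP (j + 1) (D + 1) :=
      (pow_le_pow_left₀ hD0.le (by linarith) _).trans (PP_lower (j + 1) (by linarith))
    refine mul_le_mul ?_ h7 (by positivity) (by positivity)
    have h8 : ((j + 2) * C₀ * (1 + C₀) ^ (j + 1)) / D ≤
        ((3 ^ (j + 2) + (j + 2) * C₀ * (1 + C₀) ^ (j + 1) : ℕ) : ℝ) / D := by
      refine div_le_div_of_nonneg_right ?_ hD0.le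
      push_cast
      have : (0 : ℝ) ≤ 3 ^ (j + 2) := by positivity
      linarith
    linarith
  exact le_of_pow_le_pow_left₀ (by omega : j + 2 ≠ 0) hT0 (h2.trans h3)

/-- The parameter count is at most `k ^ N`. -/
lemma ratio_le (n k d : ℕ) (hk : 1 ≤ k) :
    PP n ((k * d : ℕ) + 1) ≤ (k : ℝ) ^ (n + 1) * PP n (d + 1) := by
  unfold PP
  rw [← Finset.card_range (n + 1), ← Finset.prod_const, Finset.card_range,
    ← Finset.prod_mul_distrib]
  refine Finset.prod_le_prod (fun i _ => by positivity) fun i _ => ?_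
  have hkR : (1 : ℝ) ≤ k := by exact_mod_cast hk
  push_cast
  have h1 : (0 : ℝ) ≤ ((k : ℝ) - 1) * (1 + i) := mul_nonneg (by linarith) (by positivity)
  nlinarith

/-- **Bounds for the generic rank.** -/
theorem rank_bounds (j : ℕ) : ∃ C : ℕ, ∀ k d : ℕ, 1 ≤ k → 1 ≤ d →
    ∃ s₀ : ℕ, IsGenericRank (j + 3) k d s₀ ∧
      (k * d + (j + 2)).choose (j + 2) ≤ s₀ * (d + (j + 2)).choose (j + 2) ∧
      (∀ s : ℕ, C ≤ s → (1 + (C : ℝ) / (k * d : ℕ)) * ((k * d + (j + 2)).choose (j + 2) : ℕ) ≤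
        s * ((d + (j + 2)).choose (j + 2) : ℕ) → s₀ ≤ s) ∧
      (s₀ : ℝ) ≤ ((k * d + (j + 2)).choose (j + 2) : ℕ) / ((d + (j + 2)).choose (j + 2) : ℕ) +
        2 * C * (1 + (k : ℝ) ^ (j + 1) / d) := by
  obtain ⟨C, hC1, hC⟩ := genSum_ratio j
  refine ⟨C, fun k d hk hd => ?_⟩
  have hkd : 1 ≤ k * d := Nat.mul_pos hk hd
  have hkdR : (1 : ℝ) ≤ ((k * d : ℕ) : ℝ) := by exact_mod_cast hkd
  have hkR : (1 : ℝ) ≤ k := by exact_mod_cast hk
  have hdR : (1 : ℝ) ≤ d := by exact_mod_cast hd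
  have hCR : (1 : ℝ) ≤ C := by exact_mod_cast hC1
  have hb : 0 < (d + (j + 2)).choose (j + 2) := Nat.choose_pos (by omega)
  have hbR : (0 : ℝ) < (((d + (j + 2)).choose (j + 2) : ℕ) : ℝ) := by exact_mod_cast hb
  obtain ⟨x, hx⟩ : ∃ x : ℝ, (((k * d + (j + 2)).choose (j + 2) : ℕ) : ℝ) /
    (((d + (j + 2)).choose (j + 2) : ℕ) : ℝ) = x := ⟨_, rfl⟩
  have hx1 : (((k * d + (j + 2)).choose (j + 2) : ℕ) : ℝ) =
      x * (((d + (j + 2)).choose (j + 2) : ℕ) : ℝ) := by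
    rw [← hx, div_mul_cancel₀ _ hbR.ne']
  have hx0 : 0 ≤ x := by rw [← hx]; positivity
  -- the number of the powers
  obtain ⟨s, hs⟩ : ∃ s : ℕ, s = C + ⌈(1 + (C : ℝ) / (k * d : ℕ)) * x⌉₊ := ⟨_, rfl⟩
  have hs1 : (1 + (C : ℝ) / (k * d : ℕ)) * x ≤ s := by
    rw [hs, Nat.cast_add]
    have := Nat.le_ceil ((1 + (C : ℝ) / (k * d : ℕ)) * x)
    linarith
  have hs2 : (s : ℝ) ≤ C + (1 + (C : ℝ) / (k * d : ℕ)) * x + 1 := by
    rw [hs, Nat.cast_add]
    have := Nat.ceil_lt_add_one (a := (1 + (C : ℝ) / (k * d : ℕ)) * x) (by positivity)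
    linarith
  have hgs : GenSum (j + 3) k d s := by
    refine hC s d k (by omega) hk hd ?_
    rw [hx1, ← mul_assoc]
    exact mul_le_mul_of_nonneg_right hs1 hbR.le
  obtain ⟨s₀, h1, h2, h3⟩ := exists_rank hgs
  refine ⟨s₀, h1, ?_, fun t ht htr => h3 t (hC t d k ht hk hd htr), ?_⟩
  · by_contra hcon
    push Not at hcon
    exact not_both h2 (not_sum (N := j + 2) hcon) le_rfl hk
  · rw [hx]
    have h4 : (s₀ : ℝ) ≤ s := by exact_mod_cast h3 s hgs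
    -- the parameter count
    have h5 : x ≤ (k : ℝ) ^ (j + 2) := by
      have h6 := ratio_le (j + 1) k d hk
      rw [← PP_choose (j + 1) (k * d), ← PP_choose (j + 1) d] at h6
      have hf : (0 : ℝ) < (((j + 1 + 1).factorial : ℕ) : ℝ) := by
        exact_mod_cast Nat.factorial_pos _
      have h7 : (((j + 1 + 1).factorial : ℕ) : ℝ) *
          (((k * d + (j + 2)).choose (j + 2) : ℕ) : ℝ) ≤ (((j + 1 + 1).factorial : ℕ) : ℝ) *
            ((k : ℝ) ^ (j + 2) * (((d + (j + 2)).choose (j + 2) : ℕ) : ℝ)) := by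
        calc _ ≤ _ := h6
          _ = _ := by ring
      have h8 := le_of_mul_le_mul_left h7 hf
      rw [hx1] at h8
      exact le_of_mul_le_mul_right h8 hbR
    have h6 : (C : ℝ) / (k * d : ℕ) * x ≤ C * ((k : ℝ) ^ (j + 1) / d) := by
      calc (C : ℝ) / (k * d : ℕ) * x ≤ (C : ℝ) / (k * d : ℕ) * (k : ℝ) ^ (j + 2) :=
            mul_le_mul_of_nonneg_left h5 (by positivity)
        _ = C * ((k : ℝ) ^ (j + 1) / d) := by
            push_cast
            have hk0 : (k : ℝ) ≠ 0 := by positivity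
            have hd0 : (d : ℝ) ≠ 0 := by positivity
            field_simp
            ring
    have h7 : 0 ≤ (C : ℝ) * ((k : ℝ) ^ (j + 1) / d) := by positivity
    have h8 : (1 + (C : ℝ) / (k * d : ℕ)) * x = x + (C : ℝ) / (k * d : ℕ) * x := by ring
    rw [h8] at hs2
    nlinarith

end Pool.Agent.H669.FT
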