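import Pool.Agent.H669.FT.Cntd
import Pool.Agent.H669.FT.Num

/-!
The generic rank for all but few degrees.
-/

set_option autoImplicit false

namespace Pool.Agent.H669.FT

open Finset Pool.Agent.H929.BW

/-- The set of the bad degrees is small. -/
theorem few_bad (N C : ℕ) (hN : 2 ≤ N) : ∃ A k₁ : ℕ, ∀ k : ℕ, k₁ ≤ k → 2 ≤ k →
    ∃ S : Finset ℕ, (S.card : ℝ) ≤ A * (k : ℝ) ^ (N - 1) * (1 + Real.log k) ∧
      ∀ d m : ℕ, 1 ≤ d → d ∉ S → xf N k d ≤ m → (m : ℝ) < xf N k d + 1 →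
        (1 + (C : ℝ) / (k * d : ℕ)) * xf N k d ≤ m := by
  classical
  have hc := cN_pos N
  obtain ⟨k₁, hk₁⟩ := exists_nat_ge (2 * (C : ℝ) / cN N)
  obtain ⟨K, hK⟩ : ∃ K : ℝ, C * (N : ℝ) ^ 2 / cN N = K := ⟨_, rfl⟩
  have hK0 : 0 ≤ K := by rw [← hK]; positivity
  have hN2 : (1 : ℝ) ≤ (N : ℝ) ^ 2 := one_le_pow₀ (by exact_mod_cast (by omega : 1 ≤ N))
  have hlogN : 0 ≤ Real.log ((N : ℝ) ^ 2) := Real.log_nonneg hN2
  obtain ⟨A, hA⟩ := exists_nat_ge (1 + K * (1 + Real.log ((N : ℝ) ^ 2)) + (N : ℝ) ^ 2)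
  refine ⟨A, k₁, fun k hk hk2 => ?_⟩
  have hkR : (2 : ℝ) ≤ k := by exact_mod_cast hk2
  have hlogk : 0 ≤ Real.log k := Real.log_nonneg (by linarith)
  let B : ℕ → Finset ℕ := fun i => (Finset.Icc 1 (N ^ 2 * k ^ N)).filter fun d =>
    (i : ℝ) ≤ (k : ℝ) ^ N - xf N k d ∧ (k : ℝ) ^ N - xf N k d < i + C * (k : ℝ) ^ (N - 1) / d
  have hkp : (k : ℝ) ^ N = k ^ (N - 1) * k := by
    rw [← pow_succ]
    congr 1
    omega
  refine ⟨Finset.Icc 1 (k ^ (N - 1)) ∪ (Finset.Icc 1 (N ^ 2 * k)).biUnion B, ?_, ?_⟩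
  · have h1 : ((Finset.Icc 1 (k ^ (N - 1)) ∪ (Finset.Icc 1 (N ^ 2 * k)).biUnion B).card : ℝ) ≤
        (k : ℝ) ^ (N - 1) + ∑ i ∈ Finset.Icc 1 (N ^ 2 * k), ((B i).card : ℝ) := by
      have h2 := (card_union_le (Finset.Icc 1 (k ^ (N - 1)))
        ((Finset.Icc 1 (N ^ 2 * k)).biUnion B)).trans (Nat.add_le_add_left card_biUnion_le _)
      rw [Nat.card_Icc, Nat.add_sub_cancel] at h2
      exact_mod_cast h2
    have h2 : ∀ i ∈ Finset.Icc 1 (N ^ 2 * k), ((B i).card : ℝ) ≤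
        K * (k : ℝ) ^ (N - 1) * (i : ℝ)⁻¹ + 1 := by
      intro i hi
      have h3 := card_Bi (N := N) (k := k) (i := i) (C := C) (by omega) hk2
        (Finset.mem_Icc.1 hi).1 (B i) (fun d hd => by
          obtain ⟨h4, h5, h6⟩ := mem_filter.1 hd
          exact ⟨(Finset.mem_Icc.1 h4).1, h5, h6⟩)
      rw [hK, one_div] at h3
      exact h3
    have h3 := h1.trans (add_le_add le_rfl (Finset.sum_le_sum h2))
    rw [Finset.sum_add_distrib, ← Finset.mul_sum, Finset.sum_const, Nat.card_Icc, nsmul_eq_mul,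
      mul_one, Nat.add_sub_cancel] at h3
    have h4 : ∑ i ∈ Finset.Icc 1 (N ^ 2 * k), (i : ℝ)⁻¹ ≤ 1 + Real.log ((N ^ 2 * k : ℕ) : ℝ) := by
      have h5 := harmonic_le_one_add_log (N ^ 2 * k)
      rw [harmonic_eq_sum_Icc] at h5
      push_cast at h5 ⊢
      exact h5
    have h5 : Real.log ((N ^ 2 * k : ℕ) : ℝ) = Real.log ((N : ℝ) ^ 2) + Real.log k := by
      push_cast
      exact Real.log_mul (by positivity) (by positivity)
    rw [h5] at h4
    have h6 : (k : ℝ) ≤ (k : ℝ) ^ (N - 1) := le_self_pow₀ (by linarith) (by omega)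
    obtain ⟨w, hw⟩ : ∃ w : ℝ, (k : ℝ) ^ (N - 1) = w := ⟨_, rfl⟩
    rw [hw] at h3 h6 ⊢
    have hw0 : 0 ≤ w := by linarith
    have h7 : K * w * ∑ i ∈ Finset.Icc 1 (N ^ 2 * k), (i : ℝ)⁻¹ ≤
        K * w * (1 + (Real.log ((N : ℝ) ^ 2) + Real.log k)) :=
      mul_le_mul_of_nonneg_left h4 (mul_nonneg hK0 hw0)
    push_cast at h3
    have h8 : (N : ℝ) ^ 2 * k ≤ (N : ℝ) ^ 2 * w := mul_le_mul_of_nonneg_left h6 (by positivity)
    obtain ⟨l, hl⟩ : ∃ l : ℝ, Real.log ((N : ℝ) ^ 2) = l := ⟨_, rfl⟩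
    obtain ⟨q, hq⟩ : ∃ q : ℝ, Real.log k = q := ⟨_, rfl⟩
    rw [hl, hq] at h7
    rw [hl] at hA hlogN
    rw [hq] at hlogk ⊢
    have h9 : (1 + K * (1 + l) + (N : ℝ) ^ 2) * (w * (1 + q)) ≤ A * (w * (1 + q)) :=
      mul_le_mul_of_nonneg_right hA (by positivity)
    have h10 : 0 ≤ K * w * (l * q) := mul_nonneg (mul_nonneg hK0 hw0) (mul_nonneg hlogN hlogk)
    have h11 : 0 ≤ w * q := mul_nonneg hw0 hlogk
    have h12 : 0 ≤ (N : ℝ) ^ 2 * w * q := mul_nonneg (by positivity) hlogk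
    nlinarith
  · intro d m hd hdS hxm hmx
    by_contra hcon
    push Not at hcon
    have hdR : (1 : ℝ) ≤ d := by exact_mod_cast hd
    rw [Finset.mem_union, not_or] at hdS
    obtain ⟨hd1, hd2⟩ := hdS
    have hbig : k ^ (N - 1) < d := by
      by_contra h
      exact hd1 (Finset.mem_Icc.2 ⟨hd, by omega⟩)
    have hbigR : (k : ℝ) ^ (N - 1) < d := by exact_mod_cast hbig
    have hxk := xf_le (N := N) (k := k) (d := d) (by omega)
    have hmk : m ≤ k ^ N := by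
      have h1 : (m : ℝ) < ((k ^ N + 1 : ℕ) : ℝ) := by push_cast; linarith
      have h2 : m < k ^ N + 1 := by exact_mod_cast h1
      omega
    -- the width
    have hw : (C : ℝ) / (k * d : ℕ) * xf N k d ≤ C * (k : ℝ) ^ (N - 1) / d := by
      calc (C : ℝ) / (k * d : ℕ) * xf N k d ≤ (C : ℝ) / (k * d : ℕ) * (k : ℝ) ^ N :=
            mul_le_mul_of_nonneg_left hxk (by positivity)
        _ = _ := by
            rw [hkp]
            push_cast
            have : (k : ℝ) ≠ 0 := by positivity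
            have : (d : ℝ) ≠ 0 := by positivity
            field_simp
    obtain ⟨i, hi⟩ : ∃ i : ℕ, k ^ N = m + i := ⟨k ^ N - m, by omega⟩
    have hiR : (k : ℝ) ^ N = m + i := by exact_mod_cast hi
    have hi1 : (i : ℝ) ≤ (k : ℝ) ^ N - xf N k d := by linarith
    have hi2 : (k : ℝ) ^ N - xf N k d < i + C * (k : ℝ) ^ (N - 1) / d := by
      have : (1 + (C : ℝ) / (k * d : ℕ)) * xf N k d =
        xf N k d + (C : ℝ) / (k * d : ℕ) * xf N k d := by ring
      rw [this] at hcon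
      linarith
    have hub := hi1.trans (xf_defect N k d (by omega) hd)
    rw [le_div_iff₀ (by linarith)] at hub
    rcases Nat.eq_zero_or_pos i with h0 | h0
    · -- no integer below
      rw [h0, Nat.cast_zero, zero_add] at hi2
      have h1 := (xf_defect_ge (N := N) (by omega) hk2 hd).trans_lt hi2
      have h2 : cN N * (k : ℝ) ^ N * (1 / (2 * d)) = (cN N * k / 2) * ((k : ℝ) ^ (N - 1) / d) := by
        rw [hkp]
        have : (d : ℝ) ≠ 0 := by positivity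
        field_simp
      have h3 : C * (k : ℝ) ^ (N - 1) / d = C * ((k : ℝ) ^ (N - 1) / d) := by ring
      rw [h2, h3] at h1
      have h4 := lt_of_mul_lt_mul_right h1 (by positivity)
      have h5 : 2 * (C : ℝ) / cN N ≤ k := hk₁.trans (by exact_mod_cast hk)
      rw [div_le_iff₀ hc] at h5
      nlinarith
    · refine hd2 (mem_biUnion.2 ⟨i, Finset.mem_Icc.2 ⟨h0, ?_⟩, mem_filter.2
        ⟨Finset.mem_Icc.2 ⟨hd, ?_⟩, hi1, hi2⟩⟩)
      · -- `i ≤ N ^ 2 k`
        have h1 : (i : ℝ) * (k : ℝ) ^ (N - 1) ≤ (N : ℝ) ^ 2 * k * (k : ℝ) ^ (N - 1) := by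
          have h2 : (i : ℝ) * (k : ℝ) ^ (N - 1) ≤ i * d :=
            mul_le_mul_of_nonneg_left hbigR.le (Nat.cast_nonneg _)
          calc _ ≤ (i : ℝ) * d := h2
            _ ≤ (N : ℝ) ^ 2 * (k : ℝ) ^ N := hub
            _ = _ := by rw [hkp]; ring
        have h2 := le_of_mul_le_mul_right h1 (by positivity)
        exact_mod_cast h2
      · have h1 : (d : ℝ) ≤ i * d := by
          have : (1 : ℝ) ≤ i := by exact_mod_cast h0
          nlinarith
        have h2 := h1.trans hub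
        exact_mod_cast h2

/-- The parameter count. -/
lemma xf_eq_ratio (j k d : ℕ) : xf (j + 2) k d =
    (((k * d + (j + 2)).choose (j + 2) : ℕ) : ℝ) / (((d + (j + 2)).choose (j + 2) : ℕ) : ℝ) := by
  have hb : 0 < (d + (j + 2)).choose (j + 2) := Nat.choose_pos (by omega)
  have hbR : (0 : ℝ) < (((d + (j + 2)).choose (j + 2) : ℕ) : ℝ) := by exact_mod_cast hb
  rw [eq_div_iff hbR.ne']
  have hf : (((j + 1 + 1).factorial : ℕ) : ℝ) ≠ 0 := by
    exact_mod_cast (Nat.factorial_pos (j + 1 + 1)).ne'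
  refine mul_left_cancel₀ hf ?_
  have h1 := PP_choose (j + 1) (k * d)
  have h2 := PP_choose (j + 1) d
  calc (((j + 1 + 1).factorial : ℕ) : ℝ) * (xf (j + 2) k d *
        (((d + (j + 2)).choose (j + 2) : ℕ) : ℝ)) = xf (j + 2) k d *
        ((((j + 1 + 1).factorial : ℕ) : ℝ) * ((d + (j + 1 + 1)).choose (j + 1 + 1) : ℕ)) := by ring
    _ = xf (j + 2) k d * PP (j + 1) (d + 1) := by rw [h2]
    _ = PP (j + 1) ((k * d : ℕ) + 1) := by
        unfold xf PP
        rw [← prod_mul_distrib]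
        refine prod_congr rfl fun i _ => ?_
        unfold uf
        push_cast
        have : (d : ℝ) + (i + 1) ≠ 0 := by positivity
        have e : (d : ℝ) + 1 + i = d + (i + 1) := by ring
        rw [e, div_mul_cancel₀ _ this]
        ring
    _ = _ := by rw [← h1]

end Pool.Agent.H669.FT
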