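import Pool.Agent.H669.FT.Ter
import Pool.Agent.H669.FW.Pts
import Pool.Agent.H669.FW.Cnt

/-!
The generic rank for sums of powers of forms: the parameter count up to a factor `1 + C / (k d)`.
-/

set_option autoImplicit false

namespace Pool.Agent.H669.FT

open MvPolynomial H350MG Pool.Agent.TH206.Fro Pool.Agent.TH176.FB Pool.Agent.H929.BW

/-- `f` is a sum of `t` `k`-th powers of forms of degree `d`. -/
def IsSum (n k d t : ℕ) (f : MvPolynomial (Fin n) ℂ) : Prop :=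
  ∃ g : Fin t → MvPolynomial (Fin n) ℂ, (∀ i, (g i).IsHomogeneous d) ∧ f = ∑ i, g i ^ k

/-- The generic `k`-rank of forms of degree `k d` is `s`. -/
def IsGenericRank (n k d s : ℕ) : Prop :=
  ∃ Ψ : MvPolynomial {m : Fin n →₀ ℕ // Finsupp.degree m = k * d} ℂ, Ψ ≠ 0 ∧
    ∀ f : MvPolynomial (Fin n) ℂ, f.IsHomogeneous (k * d) →
      eval (fun m : {m : Fin n →₀ ℕ // Finsupp.degree m = k * d} => f.coeff m.1) Ψ ≠ 0 →
      IsLeast {t : ℕ | IsSum n k d t f} s

/-- The general form is a sum of `s` powers. -/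
def GenSum (n k d s : ℕ) : Prop :=
  ∃ Ψ : MvPolynomial {m : Fin n →₀ ℕ // Finsupp.degree m = k * d} ℂ, Ψ ≠ 0 ∧
    ∀ f : MvPolynomial (Fin n) ℂ, f.IsHomogeneous (k * d) →
      eval (fun m => f.coeff m.1) Ψ ≠ 0 → IsSum n k d s f

/-- The general form is not a sum of `s` powers. -/
def GenNot (n k d s : ℕ) : Prop :=
  ∃ Ψ : MvPolynomial {m : Fin n →₀ ℕ // Finsupp.degree m = k * d} ℂ, Ψ ≠ 0 ∧
    ∀ f : MvPolynomial (Fin n) ℂ, eval (fun m => f.coeff m.1) Ψ ≠ 0 → ¬ IsSum n k d s f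

lemma exists_form {n j : ℕ} (Ψ : MvPolynomial {m : Fin n →₀ ℕ // Finsupp.degree m = j} ℂ)
    (h : Ψ ≠ 0) : ∃ f : MvPolynomial (Fin n) ℂ, f.IsHomogeneous j ∧
      eval (fun m : {m : Fin n →₀ ℕ // Finsupp.degree m = j} => f.coeff m.1) Ψ ≠ 0 := by
  classical
  obtain ⟨y, hy⟩ : ∃ y : {m : Fin n →₀ ℕ // Finsupp.degree m = j} → ℂ, eval y Ψ ≠ 0 := by
    by_contra hcon
    push Not at hcon
    exact h (MvPolynomial.funext fun x => by rw [hcon x, map_zero])
  have : Finite {m : Fin n →₀ ℕ // Finsupp.degree m = j} := finite_deg j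
  have := Fintype.ofFinite {m : Fin n →₀ ℕ // Finsupp.degree m = j}
  refine ⟨∑ m : {m : Fin n →₀ ℕ // Finsupp.degree m = j}, monomial m.1 (y m),
    IsHomogeneous.sum _ _ _ fun m _ => isHomogeneous_monomial _ m.2, ?_⟩
  have e : (fun m : {m : Fin n →₀ ℕ // Finsupp.degree m = j} =>
      coeff m.1 (∑ m : {m : Fin n →₀ ℕ // Finsupp.degree m = j}, monomial m.1 (y m))) = y := by
    funext m
    rw [coeff_sum, Finset.sum_eq_single m]
    · rw [coeff_monomial, if_pos rfl]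
    · intro m' _ hm'
      rw [coeff_monomial, if_neg]
      intro h'; exact hm' (Subtype.ext h')
    · intro h'; exact absurd (Finset.mem_univ _) h'
  rw [e]
  exact hy

lemma not_both {n k d s t : ℕ} (h : GenSum n k d s) (h' : GenNot n k d t) (hst : s ≤ t)
    (hk : 1 ≤ k) : False := by
  obtain ⟨Ψ, h0, h1⟩ := h
  obtain ⟨Φ, h2, h3⟩ := h'
  obtain ⟨f, hf, hfe⟩ := exists_form (Ψ * Φ) (mul_ne_zero h0 h2)
  rw [map_mul] at hfe
  obtain ⟨g, hg, hgf⟩ := h1 f hf (left_ne_zero_of_mul hfe)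
  obtain ⟨e, rfl⟩ : ∃ e, t = s + e := ⟨t - s, by omega⟩
  refine h3 f (right_ne_zero_of_mul hfe) ⟨Fin.append g (fun _ : Fin e => 0), ?_, ?_⟩
  · intro i
    refine Fin.addCases (fun i => ?_) (fun i => ?_) i
    · rw [Fin.append_left]; exact hg i
    · rw [Fin.append_right]; exact isHomogeneous_zero _ _ _
  · rw [Fin.sum_univ_add, hgf]
    have z : ∑ i : Fin e, Fin.append g (fun _ : Fin e => (0 : MvPolynomial (Fin n) ℂ))
        (Fin.natAdd s i) ^ k = 0 :=
      Finset.sum_eq_zero fun i _ => by rw [Fin.append_right, zero_pow (by omega)]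
    rw [z, add_zero]
    exact Finset.sum_congr rfl fun i _ => by rw [Fin.append_left]

/-- The generic rank exists, if the general form is a sum of powers. -/
theorem exists_rank {n k d s : ℕ} (h : GenSum n k d s) :
    ∃ s₀ : ℕ, IsGenericRank n k d s₀ ∧ GenSum n k d s₀ ∧ ∀ t, GenSum n k d t → s₀ ≤ t := by
  classical
  have hex : ∃ s, GenSum n k d s := ⟨s, h⟩
  obtain ⟨Ψ, h0, h1⟩ := Nat.find_spec hex
  have hN : ∀ t : ℕ, ∃ Φ : MvPolynomial {m : Fin n →₀ ℕ // Finsupp.degree m = k * d} ℂ, Φ ≠ 0 ∧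
      (t < Nat.find hex → ∀ f : MvPolynomial (Fin n) ℂ, eval (fun m => f.coeff m.1) Φ ≠ 0 →
        ¬ IsSum n k d t f) := by
    intro t
    by_cases ht : t < Nat.find hex
    · rcases dich n t d k with h2 | ⟨Φ, h2, h3⟩
      · exact absurd h2 (Nat.find_min hex ht)
      · exact ⟨Φ, h2, fun _ => h3⟩
    · exact ⟨1, one_ne_zero, fun h => absurd h ht⟩
  choose Φ hΦ hΦ2 using hN
  refine ⟨Nat.find hex, ?_, ⟨Ψ, h0, h1⟩, fun t ht => Nat.find_min' hex ht⟩
  refine ⟨Ψ * ∏ t ∈ Finset.range (Nat.find hex), Φ t,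
    mul_ne_zero h0 (Finset.prod_ne_zero_iff.2 fun t _ => hΦ t), fun f hf hfe => ?_⟩
  rw [map_mul, map_prod] at hfe
  refine ⟨h1 f hf (left_ne_zero_of_mul hfe), fun t ht => ?_⟩
  by_contra hcon
  push Not at hcon
  exact hΦ2 t hcon f (Finset.prod_ne_zero_iff.1 (right_ne_zero_of_mul hfe) t
    (Finset.mem_range.2 hcon)) ht

/-- Terracini, from points. -/
theorem genSum_of {N s d k : ℕ} (p : Fin s → Fin (N + 1) → ℂ)
    (h : (Mon (N + 1) ((k + 1) * d)).card ≤
      Module.finrank ℂ (ik (fun i => lf (p i) ^ (d * k)) ((k + 1) * d))) :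
    GenSum (N + 1) (k + 1) d s := by
  classical
  have hhom : ∀ e (i : Fin s), (lf (p i) ^ e).IsHomogeneous e := fun e i => by
    have := (lf_hom (p i)).pow e
    rwa [one_mul] at this
  let x : Cf (Fin (N + 1)) (fun _ : Fin s => d) → ℂ := fun q => (lf (p q.1) ^ d).coeff q.2.1
  have hx : ∀ i, fc x i = lf (p i) ^ d := fun i =>
    fc_coeff (d := fun _ : Fin s => d) (f := fun i => lf (p i) ^ d) (fun i => hhom d i) i
  refine terracini x ?_
  have e : (fun i : Fin s => fc x i ^ k) = fun i => lf (p i) ^ (d * k) := by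
    funext i
    rw [hx, ← pow_mul]
  rw [e, ← span_inf_eq (d := fun _ : Fin s => d * k) (fun i => hhom (d * k) i)]
  exact ik_top_of_card _ _ h

/-- The general form is a sum of `s` powers if the critical degree is large. -/
theorem genSum_crit (j : ℕ) : ∃ C : ℕ, ∀ s d k : ℕ, 3 ^ (j + 2) ≤ s → 1 ≤ k →
    ((k * d : ℕ) : ℝ) + C ≤ crit (j + 2) s (d + 1) → GenSum (j + 3) k d s := by
  obtain ⟨C, hC, hmain⟩ := Pool.Agent.H929.BW.main (j + 1) (by omega)
  obtain ⟨B, hB⟩ := exists_nat_ge C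
  refine ⟨B, fun s d k hs hk h => ?_⟩
  obtain ⟨k', rfl⟩ : ∃ k', k = k' + 1 := ⟨k - 1, by omega⟩
  have e : (k' + 1) * d + 1 - d * k' = d + 1 := by
    have : (k' + 1) * d = d * k' + d := by ring
    omega
  have h1 := (hmain s (d + 1) ((k' + 1) * d) hs (by omega)).1 (by linarith)
  rw [← e] at h1
  obtain ⟨p, hp⟩ := Pool.Agent.H669.FW.pts_ik h1
  refine genSum_of (N := j + 2) p ?_
  rw [card_Mon_choose (j + 2)]
  have h3 : (Module.finrank ℂ (ik (fun i => lf (p i) ^ (d * k')) ((k' + 1) * d)) : ℤ) =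
      ((j + 1 + 1 + (k' + 1) * d).choose (j + 1 + 1) : ℕ) := hp
  have h4 : Module.finrank ℂ (ik (fun i => lf (p i) ^ (d * k')) ((k' + 1) * d)) =
      (j + 1 + 1 + (k' + 1) * d).choose (j + 1 + 1) := by exact_mod_cast h3
  rw [h4, Nat.add_comm ((k' + 1) * d)]

end Pool.Agent.H669.FT
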