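import Mathlib
import Pool.Graph.R_seed8.H350R3.MG.Frob
import Pool.Graph.R_seed8.BSR.H2OA
import Pool.Graph.R_seed8.BSR.H2I
import Pool.Graph.R_seed8.BSR.TRDEG

/-!
# Sums of powers of forms: the Terracini argument
-/

set_option autoImplicit false
set_option maxHeartbeats 1000000

namespace Pool.Agent.H669.FT

open MvPolynomial H350MG

noncomputable section

section Deriv

variable {n : ℕ} {π : Type} [Fintype π] (x v : π → ℂ)

/-- the derivative of a polynomial at `x` in the direction `v` -/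
def ta (P : MvPolynomial π ℂ) : ℂ := ∑ p, eval x (pderiv p P) * v p

lemma ta_add (P Q : MvPolynomial π ℂ) : ta x v (P + Q) = ta x v P + ta x v Q := by
  unfold ta
  rw [← Finset.sum_add_distrib]
  refine Finset.sum_congr rfl fun p _ => ?_
  rw [map_add, map_add, add_mul]

lemma ta_zero : ta x v 0 = 0 := by
  unfold ta
  refine Finset.sum_eq_zero fun p _ => ?_
  rw [map_zero, map_zero, zero_mul]

lemma ta_one : ta x v 1 = 0 := by
  unfold ta
  refine Finset.sum_eq_zero fun p _ => ?_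
  rw [pderiv_one, map_zero, zero_mul]

lemma ta_mul (P Q : MvPolynomial π ℂ) :
    ta x v (P * Q) = ta x v P * eval x Q + eval x P * ta x v Q := by
  unfold ta
  rw [Finset.sum_mul, Finset.mul_sum, ← Finset.sum_add_distrib]
  refine Finset.sum_congr rfl fun p _ => ?_
  rw [pderiv_mul, map_add, map_mul, map_mul]
  ring

lemma ta_sum {α : Type*} (T : Finset α) (f : α → MvPolynomial π ℂ) :
    ta x v (∑ i ∈ T, f i) = ∑ i ∈ T, ta x v (f i) := by
  classical
  induction T using Finset.induction_on with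
  | empty => rw [Finset.sum_empty, Finset.sum_empty, ta_zero]
  | insert a T ha ih => rw [Finset.sum_insert ha, Finset.sum_insert ha, ta_add, ih]

lemma ta_X (p : π) : ta x v (X p) = v p := by
  classical
  unfold ta
  rw [Finset.sum_eq_single p]
  · rw [pderiv_X_self, map_one, one_mul]
  · intro q _ hq
    rw [pderiv_X_of_ne (Ne.symm hq), map_zero, zero_mul]
  · intro h; exact absurd (Finset.mem_univ _) h

/-- coefficientwise derivative -/
def TT (H : MvPolynomial (Fin n) (MvPolynomial π ℂ)) : MvPolynomial (Fin n) ℂ :=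
  ∑ m ∈ H.support, monomial m (ta x v (coeff m H))

lemma coeff_TT (H : MvPolynomial (Fin n) (MvPolynomial π ℂ)) (m : Fin n →₀ ℕ) :
    coeff m (TT x v H) = ta x v (coeff m H) := by
  classical
  unfold TT
  rw [coeff_sum]
  simp only [coeff_monomial]
  rw [Finset.sum_ite_eq']
  split_ifs with h
  · rfl
  · rw [notMem_support_iff.1 h, ta_zero]

lemma TT_mul (A B : MvPolynomial (Fin n) (MvPolynomial π ℂ)) :
    TT x v (A * B) = TT x v A * map (eval x) B + map (eval x) A * TT x v B := by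
  classical
  ext m
  rw [coeff_TT, coeff_add, coeff_mul, coeff_mul, coeff_mul, ta_sum, ← Finset.sum_add_distrib]
  refine Finset.sum_congr rfl fun ab _ => ?_
  rw [ta_mul, coeff_TT, coeff_TT, coeff_map, coeff_map]

lemma TT_add (A B : MvPolynomial (Fin n) (MvPolynomial π ℂ)) :
    TT x v (A + B) = TT x v A + TT x v B := by
  ext m
  rw [coeff_TT, coeff_add, coeff_add, coeff_TT, coeff_TT, ta_add]

lemma TT_zero : TT (n := n) x v 0 = 0 := by
  ext m
  rw [coeff_TT, coeff_zero, coeff_zero, ta_zero]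

lemma TT_sum {α : Type*} (T : Finset α) (f : α → MvPolynomial (Fin n) (MvPolynomial π ℂ)) :
    TT x v (∑ i ∈ T, f i) = ∑ i ∈ T, TT x v (f i) := by
  classical
  induction T using Finset.induction_on with
  | empty => rw [Finset.sum_empty, Finset.sum_empty, TT_zero]
  | insert a T ha ih => rw [Finset.sum_insert ha, Finset.sum_insert ha, TT_add, ih]

lemma TT_one : TT (n := n) x v 1 = 0 := by
  classical
  ext m
  rw [coeff_TT, coeff_one, coeff_zero]
  split_ifs
  · exact ta_one x v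
  · exact ta_zero x v

lemma TT_pow (A : MvPolynomial (Fin n) (MvPolynomial π ℂ)) (k : ℕ) :
    TT x v (A ^ (k + 1)) = (k + 1 : ℂ) • ((map (eval x) A) ^ k * TT x v A) := by
  induction k with
  | zero => rw [zero_add, pow_one, pow_zero, one_mul, Nat.cast_zero, zero_add, one_smul]
  | succ k ih =>
    rw [pow_succ, TT_mul, ih, map_pow]
    simp only [smul_eq_C_mul]
    push_cast
    simp only [C_add, C_1]
    ring

end Deriv

variable {n s d : ℕ}

/-- the general form of degree `d` with indeterminate coefficients -/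
def G (i : Fin s) : MvPolynomial (Fin n) (MvPolynomial (Cf (Fin n) (fun _ : Fin s => d)) ℂ) :=
  ∑ m : {m : Fin n →₀ ℕ // Finsupp.degree m = d}, monomial m.1 (X ⟨i, m⟩)

lemma map_G (x : Cf (Fin n) (fun _ : Fin s => d) → ℂ) (i : Fin s) :
    map (eval x) (G i) = fc x i := by
  unfold G fc
  rw [map_sum]
  refine Finset.sum_congr rfl fun m _ => ?_
  rw [map_monomial, eval_X, smul_monomial, smul_eq_mul, mul_one]

lemma TT_G (x v : Cf (Fin n) (fun _ : Fin s => d) → ℂ) (i : Fin s) :
    TT x v (G i) = fc v i := by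
  classical
  unfold G fc
  rw [TT_sum]
  refine Finset.sum_congr rfl fun m _ => ?_
  ext m'
  rw [coeff_TT, coeff_monomial, coeff_smul, coeff_monomial]
  split_ifs
  · rw [ta_X, smul_eq_mul, mul_one]
  · rw [ta_zero, smul_zero]

/-- the coefficients of the sum of the powers -/
def FF (s d k : ℕ) (m : {m : Fin n →₀ ℕ // Finsupp.degree m = k * d}) :
    MvPolynomial (Cf (Fin n) (fun _ : Fin s => d)) ℂ :=
  coeff m.1 (∑ i : Fin s, (G i) ^ k)

lemma eval_FF (k : ℕ) (x : Cf (Fin n) (fun _ : Fin s => d) → ℂ)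
    (m : {m : Fin n →₀ ℕ // Finsupp.degree m = k * d}) :
    eval x (FF s d k m) = coeff m.1 (∑ i : Fin s, (fc x i) ^ k) := by
  unfold FF
  rw [← coeff_map, map_sum]
  congr 1
  refine Finset.sum_congr rfl fun i _ => ?_
  rw [map_pow, map_G]

lemma ta_FF (k : ℕ) (x v : Cf (Fin n) (fun _ : Fin s => d) → ℂ)
    (m : {m : Fin n →₀ ℕ // Finsupp.degree m = (k + 1) * d}) :
    ta x v (FF s d (k + 1) m) =
      coeff m.1 (∑ i : Fin s, (k + 1 : ℂ) • ((fc x i) ^ k * fc v i)) := by
  unfold FF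
  rw [← coeff_TT, TT_sum]
  congr 1
  refine Finset.sum_congr rfl fun i _ => ?_
  rw [TT_pow, map_G, TT_G]

/-- elements of the degree `j` part of the ideal -/
lemma exists_of_mem_J {r : ℕ} (δ : Fin r → ℕ) (f : Fin r → MvPolynomial (Fin n) ℂ) {j : ℕ}
    (hj : ∀ i, δ i ≤ j) {W : MvPolynomial (Fin n) ℂ} (hW : W ∈ J (fList δ f) j) :
    ∃ h : Fin r → MvPolynomial (Fin n) ℂ, (∀ i, h i ∈ Rj ℂ (Fin n) (j - δ i)) ∧
      W = ∑ i, f i * h i := by
  classical
  let N : Submodule ℂ (MvPolynomial (Fin n) ℂ) :=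
    { carrier := {W | ∃ h : Fin r → MvPolynomial (Fin n) ℂ, (∀ i, h i ∈ Rj ℂ (Fin n) (j - δ i)) ∧
        W = ∑ i, f i * h i}
      add_mem' := by
        rintro A B ⟨h, h1, rfl⟩ ⟨h', h1', rfl⟩
        refine ⟨fun i => h i + h' i, fun i => Submodule.add_mem _ (h1 i) (h1' i), ?_⟩
        rw [← Finset.sum_add_distrib]
        exact Finset.sum_congr rfl fun i _ => by rw [mul_add]
      zero_mem' := ⟨fun _ => 0, fun i => Submodule.zero_mem _, by simp⟩
      smul_mem' := by
        rintro c A ⟨h, h1, rfl⟩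
        refine ⟨fun i => c • h i, fun i => Submodule.smul_mem _ _ (h1 i), ?_⟩
        rw [Finset.smul_sum]
        exact Finset.sum_congr rfl fun i _ => by rw [mul_smul_comm] }
  have hN : J (fList δ f) j ≤ N := by
    refine J_le_of ?_
    intro c hc
    obtain ⟨i, rfl⟩ := mem_fList.1 hc
    have e : Jt (f i, δ i) j = (Rj ℂ (Fin n) (j - δ i)).map (LinearMap.mulLeft ℂ (f i)) :=
      if_pos (hj i)
    rw [e]
    rintro _ ⟨y, hy, rfl⟩
    refine ⟨Pi.single i y, fun i' => ?_, ?_⟩
    · by_cases h : i' = i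
      · subst h; rw [Pi.single_eq_same]; exact hy
      · rw [Pi.single_eq_of_ne h]; exact Submodule.zero_mem _
    · rw [Finset.sum_eq_single i]
      · rw [Pi.single_eq_same, LinearMap.mulLeft_apply]
      · intro i' _ h
        rw [Pi.single_eq_of_ne h, mul_zero]
      · intro h; exact absurd (Finset.mem_univ _) h
  exact hN hW

/-- **Terracini**: if the powers `g i ^ k` generate all forms of degree `(k + 1) d`, then the general
form of this degree is a sum of `s` powers `g i ^ (k + 1)` -/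
theorem terracini {k : ℕ} (x : Cf (Fin n) (fun _ : Fin s => d) → ℂ)
    (h : Rj ℂ (Fin n) ((k + 1) * d) ≤
      J (fList (fun _ : Fin s => d * k) (fun i => fc x i ^ k)) ((k + 1) * d)) :
    ∃ Ψ : MvPolynomial {m : Fin n →₀ ℕ // Finsupp.degree m = (k + 1) * d} ℂ, Ψ ≠ 0 ∧
      ∀ f : MvPolynomial (Fin n) ℂ, f.IsHomogeneous ((k + 1) * d) →
        eval (fun m => f.coeff m.1) Ψ ≠ 0 →
        ∃ g : Fin s → MvPolynomial (Fin n) ℂ, (∀ i, (g i).IsHomogeneous d) ∧
          f = ∑ i, g i ^ (k + 1) := by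
  classical
  have hsub : (k + 1) * d - d * k = d := by
    have : (k + 1) * d = d * k + d := by ring
    omega
  have hsurj : Function.Surjective (fun (v : Cf (Fin n) (fun _ : Fin s => d) → ℂ)
      (m : {m : Fin n →₀ ℕ // Finsupp.degree m = (k + 1) * d}) =>
        ∑ p, eval x (pderiv p (FF s d (k + 1) m)) * v p) := by
    intro w
    let W : MvPolynomial (Fin n) ℂ :=
      ∑ m : {m : Fin n →₀ ℕ // Finsupp.degree m = (k + 1) * d}, w m • monomial m.1 1
    have hWc : ∀ m : {m : Fin n →₀ ℕ // Finsupp.degree m = (k + 1) * d},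
        coeff m.1 W = w m := by
      intro m
      change coeff m.1 (∑ m : {m : Fin n →₀ ℕ // Finsupp.degree m = (k + 1) * d},
        w m • monomial m.1 1) = w m
      rw [coeff_sum, Finset.sum_eq_single m]
      · rw [coeff_smul, coeff_monomial, if_pos rfl, smul_eq_mul, mul_one]
      · intro m' _ hm'
        rw [coeff_smul, coeff_monomial, if_neg, smul_zero]
        intro h'; exact hm' (Subtype.ext h')
      · intro h'; exact absurd (Finset.mem_univ _) h'
    have hWh : W ∈ Rj ℂ (Fin n) ((k + 1) * d) :=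
      Submodule.sum_mem _ fun m _ => Submodule.smul_mem _ _ (isHomogeneous_monomial _ m.2)
    obtain ⟨hh, hh1, hh2⟩ := exists_of_mem_J _ _ (fun _ => by
      have : (k + 1) * d = d * k + d := by ring
      omega) (h hWh)
    simp only [hsub] at hh1
    have hk : ((k : ℂ) + 1) ≠ 0 := Nat.cast_add_one_ne_zero k
    refine ⟨fun p => (((k : ℂ) + 1)⁻¹ • hh p.1).coeff p.2.1, ?_⟩
    funext m
    change ta x _ (FF s d (k + 1) m) = w m
    rw [ta_FF, ← hWc m, hh2]
    congr 1
    refine Finset.sum_congr rfl fun i _ => ?_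
    have e : fc (fun p : Cf (Fin n) (fun _ : Fin s => d) =>
        (((k : ℂ) + 1)⁻¹ • hh p.1).coeff p.2.1) i = ((k : ℂ) + 1)⁻¹ • hh i :=
      fc_coeff (d := fun _ : Fin s => d) (f := fun i => ((k : ℂ) + 1)⁻¹ • hh i)
        (fun i => Submodule.smul_mem _ _ (hh1 i)) i
    rw [e, mul_smul_comm, smul_smul, mul_inv_cancel₀ hk, one_smul]
  have hinj := BSR.H2I.injective_of_surj_deriv (FF s d (k + 1)) x hsurj
  obtain ⟨Ψ, hΨ0, hΨ⟩ := BSR.H2OA.exists_open_of_injective (FF s d (k + 1)) hinj 1 one_ne_zero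
  refine ⟨Ψ, hΨ0, fun f hf hfΨ => ?_⟩
  obtain ⟨y, hy, _⟩ := hΨ _ hfΨ
  refine ⟨fun i => fc y i, fun i => fc_hom y i, ?_⟩
  have hsum : (∑ i : Fin s, fc y i ^ (k + 1)).IsHomogeneous ((k + 1) * d) := by
    refine IsHomogeneous.sum _ _ _ fun i _ => ?_
    have h1 : (fc y i).IsHomogeneous d := fc_hom y i
    have h2 := h1.pow (k + 1)
    rwa [mul_comm] at h2
  ext m
  by_cases hm : Finsupp.degree m = (k + 1) * d
  · have h1 := hy ⟨m, hm⟩
    rw [eval_FF] at h1
    exact h1.symm
  · rw [hf.coeff_eq_zero hm, hsum.coeff_eq_zero hm]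

lemma card_deg (N j : ℕ) :
    Fintype.card {m : Fin (N + 1) →₀ ℕ // Finsupp.degree m = j} = (j + N).choose N := by
  classical
  have h : ∀ m : Fin (N + 1) →₀ ℕ,
      m ∈ (Finset.univ : Finset (Fin (N + 1))).finsuppAntidiag j ↔ Finsupp.degree m = j := by
    intro m
    rw [Finset.mem_finsuppAntidiag, Finsupp.degree_eq_sum]
    constructor
    · intro h; exact h.1
    · intro h; exact ⟨h, Finset.subset_univ _⟩
  rw [Fintype.card_of_subtype _ h, Finset.card_finsuppAntidiag_nat_eq_choose, Finset.card_univ,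
    Fintype.card_fin]
  have h3 : N + 1 + j - 1 = j + N := by omega
  rw [h3]
  exact Nat.choose_symm_of_eq_add (by omega)

/-- fewer parameters: the general form is not a sum of `s` powers -/
theorem not_sum {N k : ℕ} (h : s * (d + N).choose N < (k * d + N).choose N) :
    ∃ Ψ : MvPolynomial {m : Fin (N + 1) →₀ ℕ // Finsupp.degree m = k * d} ℂ, Ψ ≠ 0 ∧
      ∀ f : MvPolynomial (Fin (N + 1)) ℂ, eval (fun m => f.coeff m.1) Ψ ≠ 0 →
        ¬ ∃ g : Fin s → MvPolynomial (Fin (N + 1)) ℂ, (∀ i, (g i).IsHomogeneous d) ∧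
          f = ∑ i, g i ^ k := by
  classical
  have hcard : Fintype.card (Cf (Fin (N + 1)) (fun _ : Fin s => d)) <
      Fintype.card {m : Fin (N + 1) →₀ ℕ // Finsupp.degree m = k * d} := by
    rw [Fintype.card_sigma, Finset.sum_const, Finset.card_univ, Fintype.card_fin, card_deg,
      card_deg, smul_eq_mul]
    exact h
  obtain ⟨Ψ, h0, hΨ⟩ := BSR.TRDEG.exists_poly_of_card_lt hcard (FF s d k)
  refine ⟨Ψ, h0, fun f hf => ?_⟩
  rintro ⟨g, hg, rfl⟩
  apply hf
  have h1 := hΨ (fun p => (g p.1).coeff p.2.1)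
  have h2 : fc (fun p : Cf (Fin (N + 1)) (fun _ : Fin s => d) => (g p.1).coeff p.2.1) = g :=
    funext fun i => fc_coeff (d := fun _ : Fin s => d) hg i
  simp only [eval_FF, h2] at h1
  exact h1

/-- The dichotomy: either the general form is a sum of `s` powers, or it is not. -/
theorem dich (n s d k : ℕ) :
    (∃ Ψ : MvPolynomial {m : Fin n →₀ ℕ // Finsupp.degree m = k * d} ℂ, Ψ ≠ 0 ∧
      ∀ f : MvPolynomial (Fin n) ℂ, f.IsHomogeneous (k * d) →
        eval (fun m => f.coeff m.1) Ψ ≠ 0 →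
        ∃ g : Fin s → MvPolynomial (Fin n) ℂ, (∀ i, (g i).IsHomogeneous d) ∧
          f = ∑ i, g i ^ k) ∨
    (∃ Ψ : MvPolynomial {m : Fin n →₀ ℕ // Finsupp.degree m = k * d} ℂ, Ψ ≠ 0 ∧
      ∀ f : MvPolynomial (Fin n) ℂ, eval (fun m => f.coeff m.1) Ψ ≠ 0 →
        ¬ ∃ g : Fin s → MvPolynomial (Fin n) ℂ, (∀ i, (g i).IsHomogeneous d) ∧
          f = ∑ i, g i ^ k) := by
  classical
  by_cases hinj : Function.Injective (MvPolynomial.aeval (FF (n := n) s d k) :
      MvPolynomial {m : Fin n →₀ ℕ // Finsupp.degree m = k * d} ℂ →ₐ[ℂ] _)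
  · left
    obtain ⟨Ψ, hΨ0, hΨ⟩ := BSR.H2OA.exists_open_of_injective (FF s d k) hinj 1 one_ne_zero
    refine ⟨Ψ, hΨ0, fun f hf hfΨ => ?_⟩
    obtain ⟨y, hy, _⟩ := hΨ _ hfΨ
    refine ⟨fun i => fc y i, fun i => fc_hom y i, ?_⟩
    have hsum : (∑ i : Fin s, fc y i ^ k).IsHomogeneous (k * d) := by
      refine IsHomogeneous.sum _ _ _ fun i _ => ?_
      have h1 : (fc y i).IsHomogeneous d := fc_hom y i
      have h2 := h1.pow k
      rwa [mul_comm] at h2
    ext m
    by_cases hm : Finsupp.degree m = k * d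
    · have h1 := hy ⟨m, hm⟩
      rw [eval_FF] at h1
      exact h1.symm
    · rw [hf.coeff_eq_zero hm, hsum.coeff_eq_zero hm]
  · right
    rw [injective_iff_map_eq_zero] at hinj
    push Not at hinj
    obtain ⟨Ψ, h1, h0⟩ := hinj
    refine ⟨Ψ, h0, fun f hf => ?_⟩
    rintro ⟨g, hg, rfl⟩
    apply hf
    have h2 : fc (fun p : Cf (Fin n) (fun _ : Fin s => d) => (g p.1).coeff p.2.1) = g :=
      funext fun i => fc_coeff (d := fun _ : Fin s => d) hg i
    have h5 : (fun m : {m : Fin n →₀ ℕ // Finsupp.degree m = k * d} =>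
        coeff m.1 (∑ i, g i ^ k)) = fun m =>
          eval (fun p : Cf (Fin n) (fun _ : Fin s => d) => (g p.1).coeff p.2.1)
            (FF s d k m) := by
      funext m
      rw [eval_FF, h2]
    have h3 := congrArg
      (eval (fun p : Cf (Fin n) (fun _ : Fin s => d) => (g p.1).coeff p.2.1)) h1
    rw [map_zero, MvPolynomial.aeval_def, MvPolynomial.algebraMap_eq,
      MvPolynomial.hom_eval₂] at h3
    rw [h5, ← h3, MvPolynomial.eval, MvPolynomial.coe_eval₂Hom]
    congr 1
    ext c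
    simp

end

end Pool.Agent.H669.FT
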